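import Pool.Agent.Helper8.SPV.Stmts

/-! # The degree of `k(T, W, X, Y)` over `k(T)` -/

set_option autoImplicit false

namespace Pool.Agent.Helper8.SPV

open IntermediateField (adjoin)

theorem A5_quad {N K : Type} [Field N] [Field K] [Algebra N K] (W : K) (c : N)
    (hW : W ^ 2 = algebraMap N K c) (htop : adjoin N {W} = ⊤) :
    FiniteDimensional N K ∧ Module.finrank N K ≤ 2 := by
  have hroot : Polynomial.aeval W (Polynomial.X ^ 2 - Polynomial.C c) = 0 := by
    rw [map_sub, map_pow, Polynomial.aeval_X, Polynomial.aeval_C, hW, sub_self]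
  have hint : IsIntegral N W :=
    ⟨Polynomial.X ^ 2 - Polynomial.C c, Polynomial.monic_X_pow_sub_C c two_ne_zero, hroot⟩
  have h1 : FiniteDimensional N (adjoin N {W}) := IntermediateField.adjoin.finiteDimensional hint
  have h2 : Module.finrank N (adjoin N {W}) = (minpoly N W).natDegree :=
    IntermediateField.adjoin.finrank hint
  have h3 : (minpoly N W).natDegree ≤ 2 := by
    have h4 := Polynomial.natDegree_le_of_dvd (minpoly.dvd N W hroot)
      (Polynomial.monic_X_pow_sub_C c two_ne_zero).ne_zero
    rwa [Polynomial.natDegree_X_pow_sub_C] at h4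
  rw [htop] at h1 h2
  refine ⟨?_, ?_⟩
  · exact Module.Finite.equiv (IntermediateField.topEquiv (F := N) (E := K)).toLinearEquiv
  · rw [IntermediateField.finrank_top'] at h2
    omega

theorem st_A5 : ST_A5 := by
  intro k K _ _ _ _ _ T W u X Y hu huT hW htop hX hY
  have hle : adjoin k {u} ≤ adjoin k {T} := by
    rw [IntermediateField.adjoin_simple_le_iff]
    exact huT
  let _ : Algebra (adjoin k {u}) (adjoin k {T}) :=
    (IntermediateField.inclusion hle).toRingHom.toAlgebra
  have htower : IsScalarTower (adjoin k {u}) (adjoin k {T}) K :=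
    IsScalarTower.of_algebraMap_eq fun _ => rfl
  have hfin : FiniteDimensional (adjoin k {u}) (adjoin (adjoin k {u}) {X, Y}) := by
    apply IntermediateField.finiteDimensional_adjoin
    intro z hz
    rcases hz with rfl | hz
    · exact hX.isIntegral
    · rw [Set.mem_singleton_iff] at hz
      rw [hz]
      exact hY.isIntegral
  have hrank := IntermediateField.adjoin_rank_le_of_isAlgebraic_right (adjoin k {T})
    (adjoin (adjoin k {u}) {X, Y})
  set L := adjoin (adjoin k {u}) {X, Y} with hL
  set N := adjoin (adjoin k {T}) (L : Set K) with hN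
  have hlt : Module.rank (adjoin k {u}) L < Cardinal.aleph0 := Module.rank_lt_aleph0 _ _
  have hNfin : FiniteDimensional (adjoin k {T}) N :=
    Module.rank_lt_aleph0_iff.1 (hrank.trans_lt hlt)
  have hNle : Module.finrank (adjoin k {T}) N ≤ Module.finrank (adjoin k {u}) L :=
    Cardinal.toNat_le_toNat hrank hlt
  have hTN : T ∈ N := by
    have h1 : T ∈ adjoin k {T} := IntermediateField.mem_adjoin_simple_self k T
    exact IntermediateField.algebraMap_mem N ⟨T, h1⟩
  have hXN : X ∈ N := IntermediateField.subset_adjoin _ _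
    (IntermediateField.subset_adjoin (adjoin k {u}) {X, Y} (by simp))
  have hYN : Y ∈ N := IntermediateField.subset_adjoin _ _
    (IntermediateField.subset_adjoin (adjoin k {u}) {X, Y} (by simp))
  have hc : T ^ 3 + 1 ∈ N := add_mem (pow_mem hTN 3) (one_mem N)
  have htow : IsScalarTower k N K := IsScalarTower.of_algebraMap_eq fun _ => rfl
  have htop' : adjoin N {W} = ⊤ := by
    rw [eq_top_iff]
    intro z _
    have hz : z ∈ adjoin k {T, W, X, Y} := by
      rw [htop]
      exact IntermediateField.mem_top
    have hle' : adjoin k {T, W, X, Y} ≤ (adjoin N {W}).restrictScalars k := by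
      rw [IntermediateField.adjoin_le_iff]
      intro y hy
      show y ∈ adjoin N {W}
      have hmem : ∀ a ∈ N, a ∈ adjoin N {W} := fun a ha =>
        IntermediateField.algebraMap_mem (adjoin N {W}) ⟨a, ha⟩
      rcases hy with rfl | rfl | rfl | hy
      · exact hmem _ hTN
      · exact IntermediateField.mem_adjoin_simple_self N y
      · exact hmem _ hXN
      · rw [Set.mem_singleton_iff] at hy
        rw [hy]
        exact hmem _ hYN
    exact hle' hz
  obtain ⟨h1, h2⟩ := A5_quad (N := N) W ⟨T ^ 3 + 1, hc⟩ hW htop'
  refine ⟨FiniteDimensional.trans (adjoin k {T}) N K, ?_⟩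
  rw [← Module.finrank_mul_finrank (adjoin k {T}) N K, mul_comm]
  exact Nat.mul_le_mul h2 hNle

end Pool.Agent.Helper8.SPV
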