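import Pool.Agent.Helper8.SPV.Stmts3

/-! # Existence of the function field of the surface -/

set_option autoImplicit false

namespace Pool.Agent.Helper8.SPV

open IntermediateField (adjoin)

theorem ESEX_Qf {k K L : Type} [Field k] [Field K] [Field L] [Algebra k K] [Algebra k L]
    (φ : K →ₐ[k] L) (b : Fin 10 → k) (t : K) : φ (Qf b t) = Qf b (φ t) := by
  rw [Qf, Qf, map_sum]
  exact Finset.sum_congr rfl fun i _ => by rw [map_mul, map_pow, AlgHom.commutes]

theorem st_ESEX : ST_ESEX := by
  intro k _ _ _ b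
  let F := FractionRing (MvPolynomial (Fin 2) k)
  let Ω := AlgebraicClosure F
  have hinj : Function.Injective (IsScalarTower.toAlgHom k (MvPolynomial (Fin 2) k) Ω) := by
    have h1 : Function.Injective (algebraMap (MvPolynomial (Fin 2) k) F) :=
      IsFractionRing.injective _ _
    have h2 : Function.Injective (algebraMap F Ω) := (algebraMap F Ω).injective
    intro a c hac
    apply h1
    apply h2
    rw [← IsScalarTower.algebraMap_apply, ← IsScalarTower.algebraMap_apply]
    exact hac
  let g := IsScalarTower.toAlgHom k (MvPolynomial (Fin 2) k) Ω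
  let t : Ω := g (MvPolynomial.X 0)
  let x : Ω := g (MvPolynomial.X 1)
  have hind : AlgebraicIndependent k ![t, x] := by
    have h1 := (MvPolynomial.algebraicIndependent_X (Fin 2) k).map' hinj
    have h2 : ![t, x] = ⇑g ∘ MvPolynomial.X := by
      funext i
      fin_cases i <;> rfl
    rw [h2]
    exact h1
  obtain ⟨w, hw⟩ := IsAlgClosed.exists_pow_nat_eq (t ^ 3 + 1) (n := 2) two_pos
  obtain ⟨y, hy⟩ := IsAlgClosed.exists_pow_nat_eq (x ^ 3 + x + Qf b t) (n := 2) two_pos
  have hS : ∀ z ∈ ({t, w, x, y} : Set Ω), z ∈ adjoin k {t, w, x, y} :=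
    fun z hz => IntermediateField.subset_adjoin _ _ hz
  refine ⟨adjoin k {t, w, x, y}, inferInstance, inferInstance, ⟨t, hS t (by simp)⟩,
    ⟨w, hS w (by simp)⟩, ⟨x, hS x (by simp)⟩, ⟨y, hS y (by simp)⟩, ⟨?_, ?_⟩, ?_, ?_⟩
  · exact Subtype.ext hw
  · apply Subtype.ext
    have h1 := ESEX_Qf (adjoin k {t, w, x, y}).val b ⟨t, hS t (by simp)⟩
    show y ^ 2 = x ^ 3 + x + (adjoin k {t, w, x, y}).val (Qf b ⟨t, hS t (by simp)⟩)
    rw [h1]
    exact hy
  · apply AlgebraicIndependent.of_comp (adjoin k {t, w, x, y}).val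
    have h2 : (adjoin k {t, w, x, y}).val ∘
        ![(⟨t, hS t (by simp)⟩ : adjoin k {t, w, x, y}), ⟨x, hS x (by simp)⟩] = ![t, x] := by
      funext i
      fin_cases i <;> rfl
    rw [h2]
    exact hind
  · apply IntermediateField.lift_injective (adjoin k {t, w, x, y})
    rw [IntermediateField.lift_adjoin, IntermediateField.lift_top]
    congr 1
    ext z
    simp only [Set.image_insert_eq, Set.image_singleton, Set.mem_insert_iff,
      Set.mem_singleton_iff]

end Pool.Agent.Helper8.SPV
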