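import Pool.Agent.Helper8.SPV.Stmts

/-! # Every transcendental element of a function field of one variable is a good parameter -/

set_option autoImplicit false

namespace Pool.Agent.Helper8.SPV

open IntermediateField (adjoin)

theorem FFT_ess {k K : Type} [Field k] [Field K] [Algebra k K] (hK : IsFF k K) :
    Algebra.EssFiniteType k K := by
  obtain ⟨x, -, hfin⟩ := hK
  have h1 : Algebra.EssFiniteType k (adjoin k {x}) := by
    rw [IntermediateField.essFiniteType_iff]
    exact IntermediateField.fg_adjoin_of_finite (Set.finite_singleton _)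
  exact Algebra.EssFiniteType.comp k (adjoin k {x}) K

theorem FFT_alg {k K : Type} [Field k] [Field K] [Algebra k K] (hK : IsFF k K) (f : K)
    (hf : Transcendental k f) : Algebra.IsAlgebraic (adjoin k {f}) K := by
  obtain ⟨x, hx, hfin⟩ := hK
  have halg : Algebra.IsAlgebraic (Algebra.adjoin k {x}) K :=
    IntermediateField.isAlgebraic_adjoin_iff_top.1 inferInstance
  have htr : Algebra.trdeg k K ≤ 1 := by
    have h1 := Algebra.IsAlgebraic.trdeg_le_cardinalMk k ({x} : Set K)
    simpa using h1
  have hf' : AlgebraicIndependent k ![f] := (algebraicIndependent_unique_type_iff).2 hf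
  have hb := hf'.isTranscendenceBasis_of_trdeg_le_of_finite (by simpa using htr)
  have h1 := hb.isAlgebraic_field
  have h2 : Set.range ![f] = {f} := by simp
  rwa [h2] at h1

theorem st_FFT : ST_FFT := by
  intro k K _ _ _ _ _ hK f hf
  have h1 := FFT_ess hK
  have h2 := FFT_alg hK f hf
  have h3 : Algebra.EssFiniteType (adjoin k {f}) K := Algebra.EssFiniteType.of_comp k _ K
  exact Algebra.finite_of_essFiniteType_of_isAlgebraic

end Pool.Agent.Helper8.SPV
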