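import Pool.Agent.Helper8.SPV.Stmts2

/-! # Differential forms of a field of transcendence degree two -/

set_option autoImplicit false

namespace Pool.Agent.Helper8.SPV

open IntermediateField (adjoin)

/-- the kernel of a derivation of a field -/
def OM_ker {k L M : Type} [Field k] [Field L] [Algebra k L] [AddCommGroup M] [Module k M]
    [Module L M] (D : Derivation k L M) : IntermediateField k L where
  carrier := {f | D f = 0}
  mul_mem' := by
    intro a b ha hb
    show D (a * b) = 0
    have ha' : D a = 0 := ha
    have hb' : D b = 0 := hb
    rw [D.leibniz, ha', hb', smul_zero, smul_zero, add_zero]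
  add_mem' := by
    intro a b ha hb
    show D (a + b) = 0
    have ha' : D a = 0 := ha
    have hb' : D b = 0 := hb
    rw [map_add, ha', hb', add_zero]
  algebraMap_mem' := fun c => D.map_algebraMap c
  inv_mem' := by
    intro a ha
    show D a⁻¹ = 0
    have ha' : D a = 0 := ha
    rw [D.leibniz_inv, ha', smul_zero]

/-- derivations vanish on algebraic elements -/
theorem OM_alg {k L M : Type} [Field k] [CharZero k] [Field L] [Algebra k L] [AddCommGroup M]
    [Module k M] [Module L M] [IsScalarTower k L M] (D : Derivation k L M)
    (S : IntermediateField k L) (hS : ∀ f ∈ S, D f = 0) (a : L) (ha : IsAlgebraic S a) :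
    D a = 0 := by
  let D' : Derivation S L M :=
    { toFun := D
      map_add' := fun x y => map_add D x y
      map_smul' := by
        intro s x
        show D (s • x) = s • D x
        rw [IntermediateField.smul_def, smul_eq_mul, D.leibniz, hS _ s.2, smul_zero, add_zero]
        rfl
      map_one_eq_zero' := D.map_one_eq_zero
      leibniz' := fun x y => D.leibniz x y }
  have : CharZero S := charZero_of_injective_algebraMap (algebraMap k S).injective
  have hsep : (minpoly S a).Separable := (minpoly.irreducible ha.isIntegral).separable
  have h1 := hsep.aeval_derivative_ne_zero (minpoly.aeval S a)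
  have h2 := D'.map_aeval (minpoly S a) a
  rw [minpoly.aeval, map_zero] at h2
  rcases smul_eq_zero.1 h2.symm with h3 | h3
  · exact absurd h3 h1
  · exact h3

theorem OM_span {k L : Type} [Field k] [CharZero k] [Field L] [Algebra k L] {t x : L}
    (halg : Algebra.IsAlgebraic (adjoin k {t, x}) L) :
    Submodule.span L {KaehlerDifferential.D k L t, KaehlerDifferential.D k L x} = ⊤ := by
  set N := Submodule.span L {KaehlerDifferential.D k L t, KaehlerDifferential.D k L x} with hN
  let D : Derivation k L (Ω[L⁄k] ⧸ N) := N.mkQ.compDer (KaehlerDifferential.D k L)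
  have hD : ∀ f, D f = N.mkQ (KaehlerDifferential.D k L f) := fun f => rfl
  have hle : adjoin k {t, x} ≤ OM_ker D := by
    rw [IntermediateField.adjoin_le_iff]
    intro y hy
    show D y = 0
    rw [hD, Submodule.mkQ_apply, Submodule.Quotient.mk_eq_zero]
    apply Submodule.subset_span
    rcases hy with rfl | hy
    · exact Set.mem_insert _ _
    · rw [Set.mem_singleton_iff] at hy
      rw [hy]
      exact Set.mem_insert_of_mem _ rfl
  have hall : ∀ f, KaehlerDifferential.D k L f ∈ N := by
    intro f
    have h1 := OM_alg D (adjoin k {t, x}) (fun g hg => hle hg) f (halg.isAlgebraic f)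
    rw [hD, Submodule.mkQ_apply, Submodule.Quotient.mk_eq_zero] at h1
    exact h1
  rw [eq_top_iff, ← KaehlerDifferential.span_range_derivation k L, Submodule.span_le]
  rintro _ ⟨f, rfl⟩
  exact hall f

theorem st_OM : ST_OM := by
  intro k L _ _ _ _ t x hind halg
  have hspan := OM_span halg
  set dt := KaehlerDifferential.D k L t with hdt
  set dx := KaehlerDifferential.D k L x with hdx
  refine ⟨?_, ?_⟩
  · intro p hp v
    have h1 := exteriorPower.ιMulti_span_of_span L p (Ω[L⁄k]) hspan
    have h2 : Submodule.span L (exteriorPower.ιMulti L p ''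
        {a : Fin p → Ω[L⁄k] | Set.range a ⊆ {dt, dx}}) ≤ ⊥ := by
      rw [Submodule.span_le]
      rintro _ ⟨a, ha, rfl⟩
      show exteriorPower.ιMulti L p a ∈ (⊥ : Submodule L _)
      rw [Submodule.mem_bot]
      apply AlternatingMap.map_eq_zero_of_not_injective
      intro hinj
      classical
      have h3 : Finset.univ.image a ⊆ {dt, dx} := by
        intro z hz
        rw [Finset.mem_image] at hz
        obtain ⟨i, -, rfl⟩ := hz
        have h4 := ha (Set.mem_range_self i)
        simpa using h4
      have h4 := Finset.card_le_card h3
      rw [Finset.card_image_of_injective _ hinj, Finset.card_univ, Fintype.card_fin] at h4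
      have h5 := Finset.card_le_two (a := dt) (b := dx)
      omega
    rw [h1] at h2
    have h3 : v ∈ (⊥ : Submodule L (Om k L p)) := h2 trivial
    exact (Submodule.mem_bot L).1 h3
  · intro D1 D2 hne
    refine ⟨?_, ?_⟩
    · intro lam1 lam2 h1 h2 v hv1 hv2
      have hsymm : ∀ f : L, (exteriorPower.oneEquiv L (Ω[L⁄k])).symm
          (KaehlerDifferential.D k L f) = dd k L 1 ![f] := by
        intro f
        rw [LinearEquiv.symm_apply_eq, dd, exteriorPower.oneEquiv_ιMulti]
        rfl
      have h3 : exteriorPower.oneEquiv L (Ω[L⁄k]) v ∈ Submodule.span L {dt, dx} := by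
        rw [hspan]
        trivial
      obtain ⟨a, b, hab⟩ := Submodule.mem_span_pair.1 h3
      have h4 : v = a • dd k L 1 ![t] + b • dd k L 1 ![x] := by
        have h8 : v = (exteriorPower.oneEquiv L (Ω[L⁄k])).symm (a • dt + b • dx) := by
          rw [hab, LinearEquiv.symm_apply_apply]
        rw [← hsymm, ← hsymm, h8, map_add, LinearEquiv.map_smul, LinearEquiv.map_smul]
      have h5 : a * D1 t + b * D1 x = 0 := by
        rw [h4, map_add, map_smul, map_smul, h1, h1] at hv1
        exact hv1
      have h6 : a * D2 t + b * D2 x = 0 := by
        rw [h4, map_add, map_smul, map_smul, h2, h2] at hv2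
        exact hv2
      have h7 : a * (D1 t * D2 x - D1 x * D2 t) = 0 := by
        linear_combination D2 x * h5 - D1 x * h6
      have h8 : b * (D1 t * D2 x - D1 x * D2 t) = 0 := by
        linear_combination D1 t * h6 - D2 t * h5
      have ha : a = 0 := (mul_eq_zero.1 h7).resolve_right hne
      have hb : b = 0 := (mul_eq_zero.1 h8).resolve_right hne
      rw [h4, ha, hb, zero_smul, zero_smul, add_zero]
    · intro lam h1 v hv
      have h2 := exteriorPower.ιMulti_span_of_span L 2 (Ω[L⁄k]) hspan
      have h3 : Submodule.span L (exteriorPower.ιMulti L 2 ''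
          {a : Fin 2 → Ω[L⁄k] | Set.range a ⊆ {dt, dx}}) ≤
          Submodule.span L {dd k L 2 ![t, x]} := by
        rw [Submodule.span_le]
        rintro _ ⟨a, ha, rfl⟩
        show exteriorPower.ιMulti L 2 a ∈ Submodule.span L {dd k L 2 ![t, x]}
        have hdd : dd k L 2 ![t, x] = exteriorPower.ιMulti L 2 ![dt, dx] := by
          rw [dd]
          refine congrArg _ ?_
          funext i
          fin_cases i <;> rfl
        have ha0 : a 0 = dt ∨ a 0 = dx := by simpa using ha (Set.mem_range_self 0)
        have ha1 : a 1 = dt ∨ a 1 = dx := by simpa using ha (Set.mem_range_self 1)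
        have haa : a = ![a 0, a 1] := by
          funext i
          fin_cases i <;> rfl
        by_cases heq : a 0 = a 1
        · have h4 : exteriorPower.ιMulti L 2 a = 0 :=
            AlternatingMap.map_eq_zero_of_eq _ a heq (by decide)
          rw [h4]
          exact zero_mem _
        · rcases ha0 with h5 | h5 <;> rcases ha1 with h6 | h6
          · exact absurd (h5.trans h6.symm) heq
          · rw [haa, h5, h6, ← hdd]
            exact Submodule.mem_span_singleton_self _
          · have h7 := AlternatingMap.map_swap (exteriorPower.ιMulti L 2 (M := Ω[L⁄k]))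
              ![dt, dx] (i := 0) (j := 1) (by decide)
            have h8 : (![dt, dx] ∘ Equiv.swap (0 : Fin 2) 1) = a := by
              rw [haa, h5, h6]
              funext i
              fin_cases i <;> rfl
            rw [h8, ← hdd] at h7
            rw [h7]
            exact Submodule.neg_mem _ (Submodule.mem_span_singleton_self _)
          · exact absurd (h5.trans h6.symm) heq
      rw [h2] at h3
      have hv' : v ∈ Submodule.span L {dd k L 2 ![t, x]} := h3 trivial
      obtain ⟨c, hc⟩ := Submodule.mem_span_singleton.1 hv'
      have h4 : c * (D1 t * D2 x - D1 x * D2 t) = 0 := by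
        rw [← hc, map_smul, h1] at hv
        exact hv
      have hc0 : c = 0 := (mul_eq_zero.1 h4).resolve_right hne
      rw [← hc, hc0, zero_smul]

end Pool.Agent.Helper8.SPV
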