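import Pool.Agent.Helper8.SPV.Stmts

/-! # Subfields of function fields of one variable -/

set_option autoImplicit false

namespace Pool.Agent.Helper8.SPV

open IntermediateField (adjoin)

theorem st_SUBFF (h : ST_FFT) : ST_SUBFF := by
  intro k K _ _ _ _ _ hK M hM
  obtain ⟨f, hfM, hf⟩ := hM
  have hfin := h k K hK f hf
  set f' : M := ⟨f, hfM⟩ with hf'
  have hf't : Transcendental k f' := by
    intro hc
    apply hf
    exact hc.algHom M.val
  have hle : ∀ e ∈ adjoin k {f}, ∃ e' : adjoin k {f'}, ((e' : M) : K) = e := by
    intro e he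
    rw [← IntermediateField.lift_adjoin_simple k M f'] at he
    obtain ⟨e', he', rfl⟩ := he
    exact ⟨⟨e', he'⟩, rfl⟩
  have hfin' : Module.Finite (adjoin k {f'}) K := by
    obtain ⟨s, hs⟩ := hfin.fg_top
    refine ⟨⟨s, ?_⟩⟩
    rw [eq_top_iff]
    intro v _
    have hv : v ∈ Submodule.span (adjoin k {f}) (s : Set K) := by
      rw [hs]
      trivial
    induction hv using Submodule.span_induction with
    | mem x hx => exact Submodule.subset_span hx
    | zero => exact zero_mem _
    | add x y _ _ hx hy => exact add_mem (hx trivial) (hy trivial)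
    | smul a x _ hx =>
      obtain ⟨e', he'⟩ := hle a a.2
      have h1 : a • x = e' • x := by
        rw [IntermediateField.smul_def, Algebra.smul_def]
        show (a : K) * x = ((e' : M) : K) * x
        rw [he']
      rw [h1]
      exact Submodule.smul_mem _ _ (hx trivial)
  have h1 : FiniteDimensional (adjoin k {f'}) M := FiniteDimensional.left (adjoin k {f'}) M K
  exact ⟨⟨f', hf't, h1⟩, FiniteDimensional.right (adjoin k {f'}) M K⟩

end Pool.Agent.Helper8.SPV
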